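import Mathlib
import Pool.Agent.H770R2.Kad.ACProps
import Pool.Agent.H770R2.Kad.Kap

open scoped ComplexOrder InnerProductSpace

noncomputable section

namespace H770R2.Kad

open H759R2.Kad

universe u

section rcen

variable {H : Type u} [NormedAddCommGroup H] [InnerProductSpace ℂ H] [CompleteSpace H]
  {M : VonNeumannAlgebra H} {δ : M.toStarSubalgebra →ₗ[ℂ] (H →L[ℂ] H)}

theorem rcen_left {a : M.toStarSubalgebra} (c : M.toStarSubalgebra) (h : LC M δ a) :
    LC M δ (c * a) := by
  unfold LC at *
  have e : (fun x => ((c * a : M.toStarSubalgebra) : H →L[ℂ] H) * δ x) =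
      fun x => (c : H →L[ℂ] H) * ((a : H →L[ℂ] H) * δ x) := by
    funext x
    simp [mul_assoc]
  rw [e]
  exact continuous_const.mul h

theorem rcen_right (hδ : IsUDer M δ) {a : M.toStarSubalgebra} (c : M.toStarSubalgebra)
    (h : LC M δ a) : LC M δ (a * c) := by
  unfold LC at *
  have e : (fun x => ((a * c : M.toStarSubalgebra) : H →L[ℂ] H) * δ x) =
      fun x => (a : H →L[ℂ] H) * δ (c * x) - (a : H →L[ℂ] H) * δ c * (x : H →L[ℂ] H) := by
    funext x
    rw [hδ c x]
    simp only [MulMemClass.coe_mul, mul_add, mul_assoc]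
    abel
  rw [e]
  exact (h.comp (continuous_const.mul continuous_id)).sub
    (continuous_const.mul continuous_subtype_val)

/-- Common kernel. -/
def rcenN (M : VonNeumannAlgebra H) (δ : M.toStarSubalgebra →ₗ[ℂ] (H →L[ℂ] H)) :
    Submodule ℂ H where
  carrier := {ξ | ∀ b : M.toStarSubalgebra, LC M δ b → (b : H →L[ℂ] H) ξ = 0}
  add_mem' := by
    intro a b ha hb c hc
    rw [map_add, ha c hc, hb c hc, add_zero]
  zero_mem' := by
    intro c _
    rw [map_zero]
  smul_mem' := by
    intro r a ha c hc
    rw [map_smul, ha c hc, smul_zero]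

theorem rcenN_mem {ξ : H} : ξ ∈ rcenN M δ ↔
    ∀ b : M.toStarSubalgebra, LC M δ b → (b : H →L[ℂ] H) ξ = 0 := Iff.rfl

theorem rcenN_closed : IsClosed (rcenN M δ : Set H) := by
  have e : (rcenN M δ : Set H) =
      ⋂ b : M.toStarSubalgebra, ⋂ _ : LC M δ b, {ξ : H | (b : H →L[ℂ] H) ξ = 0} := by
    ext ξ
    simp only [Set.mem_iInter]
    rfl
  rw [e]
  refine isClosed_iInter fun b => isClosed_iInter fun _ => ?_
  exact isClosed_eq (b : H →L[ℂ] H).continuous continuous_const

theorem rcenN_inv (hδ : IsUDer M δ) {c : H →L[ℂ] H} (hc : c ∈ M) {ξ : H} (hξ : ξ ∈ rcenN M δ) :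
    c ξ ∈ rcenN M δ := by
  intro b hb
  have := hξ (b * ⟨c, hc⟩) (rcen_right hδ ⟨c, hc⟩ hb)
  simpa using this

theorem rcenN_inv' {y : H →L[ℂ] H} (hy : y ∈ M.commutant) {ξ : H} (hξ : ξ ∈ rcenN M δ) :
    y ξ ∈ rcenN M δ := by
  intro b hb
  have h1 := VonNeumannAlgebra.mem_commutant_iff.1 hy (b : H →L[ℂ] H) b.2
  have h2 := congrArg (fun T : H →L[ℂ] H => T ξ) h1
  change (b : H →L[ℂ] H) (y ξ) = y ((b : H →L[ℂ] H) ξ) at h2
  rw [h2, hξ b hb, map_zero]

end rcen

theorem prove_rcen : R_cen.{u} := by
  intro H _ _ _ M δ hδ
  haveI : CompleteSpace (rcenN M δ) := rcenN_closed.completeSpace_coe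
  set F : H →L[ℂ] H := (rcenN M δ).starProjection with hF
  have hFM' : ∀ y ∈ M.commutant, y * F = F * y := by
    intro y hy
    ext x
    change y (F x) = F (y x)
    exact (proj_comm _ y (fun x hx => rcenN_inv' hy hx)
      (fun x hx => rcenN_inv' (star_mem hy) hx) x).symm
  have hFM : F ∈ M := by
    rw [← VonNeumannAlgebra.commutant_commutant M, VonNeumannAlgebra.mem_commutant_iff]
    exact hFM'
  have hFc : ∀ y ∈ M, y * F = F * y := by
    intro y hy
    ext x
    change y (F x) = F (y x)
    exact (proj_comm _ y (fun x hx => rcenN_inv hδ hy hx)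
      (fun x hx => rcenN_inv hδ (star_mem hy) hx) x).symm
  have hPr : IsPr F := by
    have h := isStarProjection_starProjection (U := rcenN M δ)
    exact ⟨h.isSelfAdjoint, h.isIdempotentElem⟩
  have hbF : ∀ b : M.toStarSubalgebra, LC M δ b → (b : H →L[ℂ] H) * F = 0 := by
    intro b hb
    ext x
    have : F x ∈ rcenN M δ := (rcenN M δ).starProjection_apply_mem x
    exact this b hb
  refine ⟨⟨F, hFM⟩, hPr, ?_, ?_, ?_⟩
  · intro a
    apply Subtype.ext
    exact (hFc a a.2).symm
  · -- closed graph theorem
    haveI : CompleteSpace M.toStarSubalgebra := (vn_isClosed M).completeSpace_coe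
    let q : H →L[ℂ] H := 1 - F
    let L : M.toStarSubalgebra →ₗ[ℂ] (H →L[ℂ] H) :=
      { toFun := fun x => q * δ x
        map_add' := fun x y => by rw [map_add, mul_add]
        map_smul' := fun c x => by rw [map_smul, mul_smul_comm]; rfl }
    have hL : Continuous L := by
      apply LinearMap.continuous_of_seq_closed_graph
      intro x a T hx hLx
      have hqq : q * q = q := by
        have := hPr.2
        change (1 - F) * (1 - F) = 1 - F
        rw [sub_mul, mul_sub, mul_sub, this]
        simp
      -- the limit of `L (x n - a)`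
      have h1 : Filter.Tendsto (fun n => L (x n - a)) Filter.atTop (nhds (T - L a)) := by
        have : (fun n => L (x n - a)) = fun n => L (x n) - L a := by
          funext n
          rw [map_sub]
        rw [this]
        exact hLx.sub_const _
      have h2 : Filter.Tendsto (fun n => x n - a) Filter.atTop (nhds 0) := by
        have := hx.sub_const a
        rwa [sub_self] at this
      have h3 : ∀ b : M.toStarSubalgebra, LC M δ b → (b : H →L[ℂ] H) * (T - L a) = 0 := by
        intro b hb
        have g1 : Filter.Tendsto (fun n => (b : H →L[ℂ] H) * L (x n - a)) Filter.atTop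
            (nhds ((b : H →L[ℂ] H) * (T - L a))) := h1.const_mul _
        have g2 : Filter.Tendsto (fun n => (b : H →L[ℂ] H) * L (x n - a)) Filter.atTop
            (nhds 0) := by
          have e : (fun n => (b : H →L[ℂ] H) * L (x n - a)) =
              fun n => (b : H →L[ℂ] H) * δ (x n - a) := by
            funext n
            change (b : H →L[ℂ] H) * ((1 - F) * δ (x n - a)) = _
            rw [← mul_assoc, mul_sub, hbF b hb, sub_zero, mul_one]
          rw [e]
          have g3 := (hb.tendsto 0).comp h2
          simp only [map_zero, mul_zero] at g3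
          exact g3
        exact tendsto_nhds_unique g1 g2
      have h4 : F * (T - L a) = T - L a := by
        ext x
        change F ((T - L a) x) = (T - L a) x
        rw [hF]
        apply Submodule.starProjection_eq_self_iff.2
        intro b hb
        have := congrArg (fun S : H →L[ℂ] H => S x) (h3 b hb)
        exact this
      have h5 : q * (T - L a) = T - L a := by
        have g1 : Filter.Tendsto (fun n => q * L (x n - a)) Filter.atTop
            (nhds (q * (T - L a))) := h1.const_mul _
        have e : (fun n => q * L (x n - a)) = fun n => L (x n - a) := by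
          funext n
          change q * (q * δ (x n - a)) = q * δ (x n - a)
          rw [← mul_assoc, hqq]
        rw [e] at g1
        exact tendsto_nhds_unique g1 h1
      have h6 : T - L a = 0 := by
        have : q * (T - L a) = 0 := by
          change (1 - F) * (T - L a) = 0
          rw [sub_mul, h4, one_mul, sub_self]
        rw [← h5, this]
      exact sub_eq_zero.1 h6
    exact hL
  · intro b hb
    apply Subtype.ext
    exact hbF b hb

end H770R2.Kad
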