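import Mathlib
import Pool.Agent.H770R2.Kad.HProps

open scoped ComplexOrder InnerProductSpace

noncomputable section

namespace H770R2.Kad

open H759R2.Kad

universe u v

theorem prove_hvn (h1 : H_ult) (h2 : H_fib) (h3 : H_hfib) (h4 : H_fibre) : H_vn := by
  intro L _ _ _ M _ _ H _ _ _ W hW c hc hWc m X
  have hc0 : 0 < c := lt_of_lt_of_le one_pos hc
  by_cases h0 : amp W (Fin m) X = 0
  · rw [h0, norm_zero]
    positivity
  obtain ⟨F, hF, hFX⟩ := h1 L M H W hW c hc hWc m X h0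
  have hpos : 0 < ‖amp W (Fin m) X‖ := norm_pos_iff.2 h0
  have hκ : 0 < ‖amp W (Fin m) X‖ / c ^ 3 := by positivity
  have hκ' : ∀ p ∈ F, ‖amp W (Fin m) X‖ / c ^ 3 ≤ ‖dg m (W p) * amp W (Fin m) X‖ := by
    intro p hp
    rw [div_le_iff₀ (by positivity), mul_comm]
    exact hFX p hp
  obtain ⟨K, _, _, _, w, hw, hwa, hκw⟩ := h3 L M F hF H W hW c hc hWc m X _ hκ hκ'
  obtain ⟨B, _, φ, hφs, hφc, hφr⟩ := h2 L M F hF
  have hex : ∀ a : M.toStarSubalgebra, ∀ r : ℝ, 0 < r → ∃ p ∈ F, ‖p * a‖ < ‖φ a‖ + r := by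
    intro a r hr
    by_contra hcon
    push Not at hcon
    have := hφr a (‖φ a‖ + r) hcon
    linarith
  have hwφ : ∀ a : M.toStarSubalgebra, ‖w a‖ ≤ c * ‖φ a‖ := by
    intro a
    refine le_of_forall_pos_le_add ?_
    intro ε hε
    obtain ⟨p, hp, hpa⟩ := hex a (ε / c) (by positivity)
    calc ‖w a‖ ≤ c * ‖p * a‖ := hwa a p hp
      _ ≤ c * (‖φ a‖ + ε / c) := by gcongr
      _ = c * ‖φ a‖ + ε := by field_simp
  have hfac : ∀ a b : M.toStarSubalgebra, φ a = φ b → w a = w b := by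
    intro a b hab
    have e1 := hwφ (a - b)
    rw [map_sub φ, hab, sub_self, norm_zero, mul_zero] at e1
    have e2 : w (a - b) = 0 := norm_le_zero_iff.1 e1
    rw [map_sub] at e2
    exact sub_eq_zero.1 e2
  let s : B → M.toStarSubalgebra := Function.surjInv hφs
  have hs : ∀ b, φ (s b) = b := Function.surjInv_eq hφs
  let w' : B →ₗ[ℂ] (K →L[ℂ] K) :=
    { toFun := fun b => w (s b)
      map_add' := fun a b => by
        rw [← map_add]
        apply hfac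
        rw [map_add, hs, hs, hs]
      map_smul' := fun r a => by
        rw [RingHom.id_apply, ← map_smul]
        apply hfac
        rw [map_smul, hs, hs] }
  have hw'φ : ∀ a, w' (φ a) = w a := by
    intro a
    apply hfac
    rw [hs]
  have hw' : IsHom w' := by
    constructor
    · intro a b
      rw [← hs a, ← hs b, ← map_mul, hw'φ, hw'φ, hw'φ, hw.mul]
    · rw [← map_one φ, hw'φ, hw.one]
  have hw'c : ∀ b, ‖w' b‖ ≤ c * ‖b‖ := by
    intro b
    rw [← hs b, hw'φ]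
    exact hwφ _
  letI : PartialOrder B := CStarAlgebra.spectralOrder B
  haveI : StarOrderedRing B := CStarAlgebra.spectralOrderedRing B
  have hlvl := h4 L M B φ hφs hφc K w' hw' c hc hw'c m
    (CStarMatrix.mapₙₐ (n := Fin m) (φ : M.toStarSubalgebra →⋆ₙₐ[ℂ] B) X)
  have hn : ‖CStarMatrix.mapₙₐ (n := Fin m) (φ : M.toStarSubalgebra →⋆ₙₐ[ℂ] B) X‖ ≤ ‖X‖ :=
    NonUnitalStarAlgHom.norm_apply_le _ _
  have he : amp w' (Fin m) (CStarMatrix.mapₙₐ (n := Fin m)
      (φ : M.toStarSubalgebra →⋆ₙₐ[ℂ] B) X) = amp w (Fin m) X := by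
    ext ξ i
    rw [amp_apply, amp_apply]
    refine Finset.sum_congr rfl fun j _ => ?_
    rw [← hw'φ]
    rfl
  rw [he] at hlvl
  have hfin : ‖amp w (Fin m) X‖ ≤ 432 * c ^ 25 * ‖X‖ :=
    hlvl.trans (mul_le_mul_of_nonneg_left hn (by positivity))
  calc ‖amp W (Fin m) X‖ = c ^ 3 * (‖amp W (Fin m) X‖ / c ^ 3) := by field_simp
    _ ≤ c ^ 3 * (2 * c * ‖amp w (Fin m) X‖) := by gcongr
    _ ≤ c ^ 3 * (2 * c * (432 * c ^ 25 * ‖X‖)) := by gcongr
    _ = 864 * c ^ 29 * ‖X‖ := by ring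

end H770R2.Kad
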